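import Pool.Agent.GNH.Final

/-!
# MP_650813_pr: the two separating systoles separate when θ is close to 1/2

There are absolute constants `c, C > 0` and `θ₀ < 1/2` such that for `θ ∈ (θ₀, 1/2)` and `g n / n → θ`, with
probability tending to 1, a uniform rooted triangulation of genus `g n` with `2n` faces has
* a separating non-contractible cycle of length at most `C log n / log (1/(1-2θ))`, and
* no simple separating non-contractible cycle of length at most `c log n`.

Hence, for every `M`, if `θ` is close enough to `1/2` then, with probability tending to 1, the simple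
separating systole is larger than `M` times the separating systole.

Paper proof: `/team-store/gnh_blueprint.md`.
-/

namespace Pool.Agent.Results.MP_650813_pr.GapNearHalf

open Filter Topology SST

theorem result :
    (∃ c C θ₀ : ℝ, 0 < c ∧ 0 < C ∧ θ₀ < 1 / 2 ∧ ∀ θ : ℝ, θ₀ < θ → θ < 1 / 2 → ∀ g : ℕ → ℕ,
      Tendsto (fun n => (g n : ℝ) / n) atTop (𝓝 θ) →
      Tendsto (fun n : ℕ =>
        (Nat.card {q : RTri n (g n) // q.HasSep (C * Real.log n / Real.log (1 / (1 - 2 * θ))) ∧
          ¬ q.HasSSC (c * Real.log n)} : ℝ) / Nat.card (RTri n (g n))) atTop (𝓝 1)) ∧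
    ∀ M : ℝ, ∃ θ₀ : ℝ, θ₀ < 1 / 2 ∧ ∀ θ : ℝ, θ₀ < θ → θ < 1 / 2 → ∀ g : ℕ → ℕ,
      Tendsto (fun n => (g n : ℝ) / n) atTop (𝓝 θ) →
      Tendsto (fun n : ℕ =>
        (Nat.card {q : RTri n (g n) // ∃ L : ℝ, q.HasSep L ∧ ¬ q.HasSSC (M * L)} : ℝ) /
          Nat.card (RTri n (g n))) atTop (𝓝 1) := by
  refine ⟨⟨1 / 30, 17, 1 / 2 - 1 / 10 ^ 50, by norm_num, by norm_num, by norm_num, ?_⟩, ?_⟩
  · intro θ h h' g hg
    have h1 := GNH.final h h' hg
    have e : ∀ n : ℕ, (1 / 30 : ℝ) * Real.log n = Real.log n / 30 := fun n => by ring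
    simpa only [e] using h1
  · intro M
    exact GNH.ratio M

end Pool.Agent.Results.MP_650813_pr.GapNearHalf
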