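import Pool.Agent.SYS.Full

/-!
# MP_650813_pr, Q1: the separating systoles of random triangulations of high genus (full answer)

For every `θ ∈ (0, 1/2)` there are constants `0 < S < S'` such that for uniform rooted triangulations of genus `g n` with
`2n` faces, `g n / n → θ`: `sepsys / log n → S` and `sepsys* / log n → S'` in probability (`sepsys`: minimum length of a
separating non-contractible cycle, `sepsys*`: of a simple one).  Moreover `S = 1 / x`, where `x > 0` is the solution of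
`3 x cosh x = (1 - 2 θ) sinh x (cosh² x + 2)`.
-/

namespace Pool.Agent.Results.MP_650813_pr.SystoleLimits

open Filter Topology SST

theorem result {θ : ℝ} (hθ : 0 < θ) (hθ' : θ < 1 / 2) :
    ∃ x : ℝ, (0 < x ∧ 3 * x * Real.cosh x = (1 - 2 * θ) * (Real.sinh x * (Real.cosh x ^ 2 + 2))) ∧
      (∀ y : ℝ, 0 < y → 3 * y * Real.cosh y = (1 - 2 * θ) * (Real.sinh y * (Real.cosh y ^ 2 + 2)) → y = x) ∧
      ∃ S' : ℝ, 1 / x < S' ∧ ∀ g : ℕ → ℕ, Tendsto (fun n => (g n : ℝ) / n) atTop (𝓝 θ) → ∀ ε : ℝ, 0 < ε →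
        Tendsto (fun n : ℕ => (Nat.card {q : RTri n (g n) //
          (¬ q.HasSep ((1 / x - ε) * Real.log n) ∧ q.HasSep ((1 / x + ε) * Real.log n)) ∧
          (¬ q.HasSSC ((S' - ε) * Real.log n) ∧ q.HasSSC ((S' + ε) * Real.log n))} : ℝ) / Nat.card (RTri n (g n)))
          atTop (𝓝 1) :=
  SYS.full hθ hθ'

end Pool.Agent.Results.MP_650813_pr.SystoleLimits
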